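import Pool.Agent.Run7.h188.MultMain

/-!
# Nonzero digits of almost all multiples of an algebraic irrational number

Let `x` be a real irrational algebraic number of degree `D` and `b ≥ 2`. By a theorem of Bailey,
Borwein, Crandall and Pomerance at least `c n ^ (1 / D)` of the first `n` digits of `x` are not zero.
Here we show that for `1 ≪ L ≤ n` almost all of the numbers `m x`, `m ≤ M`, with any `M ≥ b ^ L`, have
at least `c n ^ (1 / D) L ^ (1 - 1 / D)` nonzero digits among their first `n` digits, and as many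
digits which are not `b - 1`. The bound interpolates between the theorem of Bailey, Borwein, Crandall
and Pomerance and a positive proportion. The same holds for the numbers `m (x + a) / s`, `m ≤ M`, where
`a` is any integer and `1 ≤ s ≤ M / b ^ L`, and the constant depends neither on `a` nor on `s`.

Proof. If more than `δ M` of the multiples `m θ`, `m ≤ M`, are in `[0, ε)` modulo one, where `ε` is
small in terms of `δ`, then `θ = p / q + η` with `q ≤ 3 / δ`, `η ≥ 0` and `M η` small, so that `N θ` is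
in `[0, N / M)` modulo one, `N = N(δ)`. For `θ = b ^ k (x + a) / s` this means that the next
`L - O(1)` digits of `N x` after the `k`-th are zeros. By the theorem on coverings of the nonzero
digits (the starting result `MP_f2f914_nt.CoveringNonzeroDigits`), applied to `N x` and to blocks of
length `L`, this is not so for at least `c n ^ (1 / D) L ^ (1 - 1 / D)` places `k ≤ n`.
-/

set_option autoImplicit false

open Finset

namespace Pool.Agent.Results.MP_f2f914_nt.AlmostAllMultiples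

/-- the `k`-th digit of `y` after the point in base `b` -/
noncomputable def digit (b : ℕ) (y : ℝ) (k : ℕ) : ℤ := ⌊y * (b : ℝ) ^ k⌋ % (b : ℤ)

/-- the number of `k` in `[1, n]` for which the `k`-th digit of `y` is not `e` -/
noncomputable def others (b : ℕ) (y : ℝ) (e : ℤ) (n : ℕ) : ℕ :=
  ((Icc 1 n).filter (fun k => digit b y k ≠ e)).card

lemma others_zero (b : ℕ) (y : ℝ) (n : ℕ) : others b y 0 n = (Run7.h188.Mult.nz b y n).card := rfl

lemma others_top {b : ℕ} (hb : 2 ≤ b) {y : ℝ} (hy : Irrational y) (n : ℕ) :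
    others b y (b - 1) n = (Run7.h188.Mult.nz b (-y) n).card := by
  rw [others, Run7.h188.Mult.nz]
  congr 1
  apply filter_congr
  intro k _
  rw [not_iff_not, digit, Pool.Agent.H820R3.DG.digit]
  have h1 : ⌊-y * (b : ℝ) ^ k⌋ = -(⌊y * (b : ℝ) ^ k⌋ + 1) := by
    have hirr : Irrational (y * (b : ℝ) ^ k) := by
      have h2 : ((b ^ k : ℕ) : ℝ) = (b : ℝ) ^ k := by push_cast; rfl
      rw [← h2]
      exact hy.mul_natCast (by positivity)
    rw [Int.floor_eq_iff]
    have h3 := Int.floor_le (y * (b : ℝ) ^ k)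
    have h4 := Int.lt_floor_add_one (y * (b : ℝ) ^ k)
    have h5 : y * (b : ℝ) ^ k ≠ ⌊y * (b : ℝ) ^ k⌋ := hirr.ne_int _
    have h6 : (⌊y * (b : ℝ) ^ k⌋ : ℝ) < y * (b : ℝ) ^ k := lt_of_le_of_ne h3 (Ne.symm h5)
    push_cast
    constructor <;> linarith
  rw [h1]
  have hbpos : (0 : ℤ) < b := by exact_mod_cast (show 0 < b by omega)
  constructor
  · intro h
    apply Int.emod_eq_zero_of_dvd
    rw [dvd_neg]
    apply Int.dvd_of_emod_eq_zero
    rw [Int.add_emod, h]
    rw [Int.emod_eq_zero_of_dvd]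
    have : (b : ℤ) - 1 + 1 % (b : ℤ) = b := by
      rw [Int.emod_eq_of_lt (by norm_num) (by exact_mod_cast (show 1 < b by omega))]
      ring
    rw [this]
  · intro h
    have h2 := Int.dvd_of_emod_eq_zero h
    rw [dvd_neg] at h2
    obtain ⟨t, ht⟩ := h2
    have h3 : ⌊y * (b : ℝ) ^ k⌋ = (b - 1 : ℤ) + b * (t - 1) := by
      have : ⌊y * (b : ℝ) ^ k⌋ = b * t - 1 := by omega
      rw [this]; ring
    rw [h3, Int.add_mul_emod_self_left]
    exact Int.emod_eq_of_lt (by omega) (by omega)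

open Classical in
/-- The result. Here `D` is the degree of `x`. -/
theorem result (x : ℝ) (halg : IsAlgebraic ℚ x) (hirr : Irrational x) (D : ℕ)
    (hD : (minpoly ℚ x).natDegree = D) (b : ℕ) (hb : 2 ≤ b) (δ : ℝ) (hδ : 0 < δ) :
    ∃ c : ℝ, 0 < c ∧ ∃ L₀ : ℕ, ∀ L : ℕ, L₀ ≤ L → ∀ s : ℕ, 1 ≤ s → ∀ a : ℤ,
      ∀ M : ℕ, s * b ^ L ≤ M →
      (∀ n : ℕ, L ≤ n → (((Icc 1 M).filter (fun m : ℕ =>
        (others b (m * (x + a) / s) 0 n : ℝ) <
          c * (n : ℝ) ^ (1 / (D : ℝ)) * (L : ℝ) ^ (1 - 1 / (D : ℝ)) ∨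
        (others b (m * (x + a) / s) (b - 1) n : ℝ) <
          c * (n : ℝ) ^ (1 / (D : ℝ)) * (L : ℝ) ^ (1 - 1 / (D : ℝ)))).card : ℝ) ≤ δ * M) ∧
      (((Icc 1 M).filter (fun m : ℕ => ∃ n₁ : ℕ, ∀ n : ℕ, n₁ ≤ n →
        (others b (m * (x + a) / s) 0 n : ℝ) <
          c * (n : ℝ) ^ (1 / (D : ℝ)) * (L : ℝ) ^ (1 - 1 / (D : ℝ)) ∨
        (others b (m * (x + a) / s) (b - 1) n : ℝ) <
          c * (n : ℝ) ^ (1 / (D : ℝ)) * (L : ℝ) ^ (1 - 1 / (D : ℝ)))).card : ℝ) ≤ δ * M := by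
  classical
  have hD1 : 1 ≤ D := by rw [← hD]; exact minpoly.natDegree_pos halg.isIntegral
  have hDR : (0 : ℝ) < D := by exact_mod_cast hD1
  have hdegneg : (minpoly ℚ (-x)).natDegree = D := by
    have h1 := Run7.h188.Mult.natDegree_mul (c := (-1 : ℚ)) (by norm_num) halg
    rw [hD] at h1
    push_cast at h1
    rwa [neg_one_mul] at h1
  obtain ⟨c1, hc1, L1, h1⟩ := Run7.h188.Mult.main_pow hb halg hirr D hD (δ / 2) (by positivity)
  obtain ⟨c2, hc2, L2, h2⟩ := Run7.h188.Mult.main_pow hb halg.neg hirr.neg D hdegneg (δ / 2)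
    (by positivity)
  set c : ℝ := (min c1 c2) ^ (1 / (D : ℝ)) with hc
  have hminpos : 0 < min c1 c2 := lt_min hc1 hc2
  have hcpos : 0 < c := Real.rpow_pos_of_pos hminpos _
  -- comparison of powers
  have hcmp : ∀ (c' : ℝ), min c1 c2 ≤ c' → ∀ (V n L : ℕ), 1 ≤ L →
      (V : ℝ) < c * (n : ℝ) ^ (1 / (D : ℝ)) * (L : ℝ) ^ (1 - 1 / (D : ℝ)) →
      (V : ℝ) ^ D < c' * n * (L : ℝ) ^ (D - 1) := by
    intro c' hc' V n L hL hV
    have hLR : (0 : ℝ) < L := by exact_mod_cast hL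
    have h3 : (V : ℝ) ^ D < (c * (n : ℝ) ^ (1 / (D : ℝ)) * (L : ℝ) ^ (1 - 1 / (D : ℝ))) ^ D :=
      pow_lt_pow_left₀ hV (by positivity) (by omega)
    have h4 : (c * (n : ℝ) ^ (1 / (D : ℝ)) * (L : ℝ) ^ (1 - 1 / (D : ℝ))) ^ D =
        min c1 c2 * n * (L : ℝ) ^ (D - 1) := by
      rw [mul_pow, mul_pow, hc, ← Real.rpow_natCast, ← Real.rpow_mul hminpos.le,
        ← Real.rpow_natCast, ← Real.rpow_mul (by positivity : (0 : ℝ) ≤ n),
        ← Real.rpow_natCast, ← Real.rpow_mul hLR.le]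
      rw [show (1 : ℝ) / D * (D : ℕ) = 1 by field_simp, Real.rpow_one, Real.rpow_one]
      congr 1
      rw [show (1 - 1 / (D : ℝ)) * (D : ℕ) = ((D - 1 : ℕ) : ℝ) by
        rw [Nat.cast_sub hD1]; field_simp; push_cast; ring, Real.rpow_natCast]
    rw [h4] at h3
    refine h3.trans_le ?_
    apply mul_le_mul_of_nonneg_right _ (by positivity)
    exact mul_le_mul_of_nonneg_right hc' (by positivity)
  refine ⟨c, hcpos, max (max L1 L2) 1, ?_⟩
  intro L hL s hs a M hM
  have hL1 : L1 ≤ L := by omega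
  have hL2 : L2 ≤ L := by omega
  have hL3 : 1 ≤ L := by omega
  have hfirst : ∀ n : ℕ, L ≤ n → (((Icc 1 M).filter (fun m : ℕ =>
        (others b (m * (x + a) / s) 0 n : ℝ) <
          c * (n : ℝ) ^ (1 / (D : ℝ)) * (L : ℝ) ^ (1 - 1 / (D : ℝ)) ∨
        (others b (m * (x + a) / s) (b - 1) n : ℝ) <
          c * (n : ℝ) ^ (1 / (D : ℝ)) * (L : ℝ) ^ (1 - 1 / (D : ℝ)))).card : ℝ) ≤ δ * M := by
    intro n hn
    have e1 := h1 L hL1 n hn s hs a M hM
    have e2 := h2 L hL2 n hn s hs (-a) M hM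
    have hsub : (Icc 1 M).filter (fun m : ℕ =>
        (others b (m * (x + a) / s) 0 n : ℝ) <
          c * (n : ℝ) ^ (1 / (D : ℝ)) * (L : ℝ) ^ (1 - 1 / (D : ℝ)) ∨
        (others b (m * (x + a) / s) (b - 1) n : ℝ) <
          c * (n : ℝ) ^ (1 / (D : ℝ)) * (L : ℝ) ^ (1 - 1 / (D : ℝ))) ⊆
        ((Icc 1 M).filter (fun m : ℕ =>
        ((Run7.h188.Mult.nz b ((m : ℝ) * ((x + a) / s)) n).card : ℝ) ^ D <
          c1 * n * (L : ℝ) ^ (D - 1))) ∪
        ((Icc 1 M).filter (fun m : ℕ =>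
        ((Run7.h188.Mult.nz b ((m : ℝ) * ((-x + (-a : ℤ)) / s)) n).card : ℝ) ^ D <
          c2 * n * (L : ℝ) ^ (D - 1))) := by
      intro m hm
      rw [mem_filter] at hm
      rw [mem_union, mem_filter, mem_filter]
      obtain ⟨hm1, hm2⟩ := hm
      rcases hm2 with hm2 | hm2
      · left
        refine ⟨hm1, ?_⟩
        rw [others_zero, mul_div_assoc] at hm2
        exact hcmp c1 (min_le_left _ _) _ n L hL3 hm2
      · right
        refine ⟨hm1, ?_⟩
        have hmpos : m ≠ 0 := by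
          have := (mem_Icc.1 hm1).1
          omega
        have hy : Irrational ((m : ℝ) * (x + a) / s) :=
          ((hirr.add_intCast a).natCast_mul hmpos).div_natCast (by omega)
        rw [others_top hb hy] at hm2
        have h3 : -((m : ℝ) * (x + a) / s) = (m : ℝ) * ((-x + (-a : ℤ)) / s) := by
          push_cast; ring
        rw [h3] at hm2
        exact hcmp c2 (min_le_right _ _) _ n L hL3 hm2
    have h3 := (card_le_card hsub).trans (card_union_le _ _)
    have h4 : ((((Icc 1 M).filter (fun m : ℕ =>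
        (others b (m * (x + a) / s) 0 n : ℝ) <
          c * (n : ℝ) ^ (1 / (D : ℝ)) * (L : ℝ) ^ (1 - 1 / (D : ℝ)) ∨
        (others b (m * (x + a) / s) (b - 1) n : ℝ) <
          c * (n : ℝ) ^ (1 / (D : ℝ)) * (L : ℝ) ^ (1 - 1 / (D : ℝ)))).card : ℕ) : ℝ) ≤
        δ / 2 * M + δ / 2 * M := by
      refine le_trans (Nat.cast_le.mpr h3) ?_
      rw [Nat.cast_add]
      exact add_le_add e1 e2
    linarith
  refine ⟨hfirst, ?_⟩
  -- the second part: the exceptional multipliers have a common stage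
  set P : ℕ → ℕ → Prop := fun m n => (others b (m * (x + a) / s) 0 n : ℝ) <
          c * (n : ℝ) ^ (1 / (D : ℝ)) * (L : ℝ) ^ (1 - 1 / (D : ℝ)) ∨
        (others b (m * (x + a) / s) (b - 1) n : ℝ) <
          c * (n : ℝ) ^ (1 / (D : ℝ)) * (L : ℝ) ^ (1 - 1 / (D : ℝ)) with hP
  have hchoose : ∀ m : ℕ, ∃ n₁ : ℕ, (∃ n₁ : ℕ, ∀ n : ℕ, n₁ ≤ n → P m n) → ∀ n : ℕ, n₁ ≤ n → P m n := by
    intro m
    by_cases h : ∃ n₁ : ℕ, ∀ n : ℕ, n₁ ≤ n → P m n
    · obtain ⟨n₁, hn₁⟩ := h
      exact ⟨n₁, fun _ => hn₁⟩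
    · exact ⟨0, fun h' => absurd h' h⟩
  choose f hf using hchoose
  set n : ℕ := L + ∑ m ∈ Icc 1 M, f m with hn
  refine le_trans ?_ (hfirst n (by omega))
  have hsub : (Icc 1 M).filter (fun m : ℕ => ∃ n₁ : ℕ, ∀ n : ℕ, n₁ ≤ n → P m n) ⊆
      (Icc 1 M).filter (fun m : ℕ => P m n) := by
    intro m hm
    rw [mem_filter] at hm ⊢
    refine ⟨hm.1, hf m hm.2 n ?_⟩
    have := single_le_sum (f := f) (fun i _ => Nat.zero_le _) hm.1
    omega
  exact_mod_cast card_le_card hsub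

end Pool.Agent.Results.MP_f2f914_nt.AlmostAllMultiples
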