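import Pool.Agent.N586.AN.Tot3
import Pool.Agent.N586.AN.Br
import Pool.Agent.N586.AN.Cnt
import Pool.Agent.N586.AN.Sh
import Pool.Agent.N586.AN.Alg
import Pool.Agent.N586.AN.Vm
import Pool.Agent.Run7.h184.AN.Clt

/-!
# The central limit theorem for the digits of the real algebraic numbers of degree `d`, up to
`(log H) ^ (3 / 2 - ε)` digits

Let `x` be random among the real algebraic numbers of degree `d ≥ 2` and height at most `H`, where the
height is the largest absolute value of a coefficient of the minimal polynomial over the integers. Let
`y = f(x) / m` be an element of the number field `ℚ(x)`, where `f = f_H` is an integral polynomial with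
`1 ≤ deg f < d` and `m = m_H` and the coefficients of `f` are at most `exp ((log H) ^ β)`; for instance
`y = x`. Let `F` be any function of the words of `w` digits in base `b`. The sum of the values of `F` at
the words which stand at `N = N_H → ∞` consecutive places of `y`, between the places `c₀ log H`
(`c₀ > 0` arbitrarily small) and `(log H) ^ (1 + δ)`, where `2 δ + β < 1`, is asymptotically normal, with
the mean and the variance which belong to a random real number. For instance the number of the digits
`1` among `N` binary digits of `x` is `N / 2 + X √N / 2` with `X` asymptotically standard normal.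

The windows may be much longer than `log H`, the size of the input; then they contain far more digits than
are determined by the interval of length `H ^ (-C)` which contains `x`. The words of fixed length have the
right frequencies in such windows for nearly all `x` by the starting result `SuperlogAlgebraicNumbers`; here
the deviations of the frequencies from their means are determined.

Proof. The exponential sums of `e(θ g(x))` over all `x` of height at most `H` are at most
`exp (-(log H) ^ β)` times the trivial bound for all `θ` between `H ^ δ₀` and `exp ((log H) ^ (1 + δ))`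
(`S_AH2`, by summation over the contents of the polynomials from the exponential sums over pairs of a
polynomial and a root in the starting files `Pool.Agent.N586.AN`). With the Beurling-Selberg type test of
`Pool.Agent.N586.RT` the joint probabilities of the words at `k` places agree with those of a random real
number up to `exp (-c_k (log H) ^ β₁)` for some `β₁ > β`, uniformly in the places; so do all moments of
the normalised sum, and the theorem follows from the method of moments.
-/

set_option autoImplicit false

namespace Pool.Agent.Results.MP_f2f914_nt.GaussianLawOfDigits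

open Polynomial Filter Topology

/-- the real algebraic numbers of degree `d` and height at most `H`: the real roots of the
irreducible integral polynomials of degree `d` with all coefficients at most `H` in absolute value -/
def AlgNumbers (d H : ℕ) : Set ℝ :=
  {x | ∃ P : ℤ[X], Irreducible P ∧ P.natDegree = d ∧ (∀ i, |P.coeff i| ≤ H) ∧ aeval x P = 0}

/-- the word of the `k` digits in base `b` of `y` which follow the first `n` digits after the point,
read as an integer between `0` and `b ^ k - 1` -/
noncomputable def word (b k n : ℕ) (y : ℝ) : ℕ :=
  ⌊(b : ℝ) ^ k * Int.fract ((b : ℝ) ^ n * y)⌋₊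

/-- `1 ≤ deg f < d`, and `m ≥ 1` and the absolute values of the coefficients of the integral
polynomial `f` are at most `exp ((log H) ^ β)` -/
def Small (d H : ℕ) (β : ℝ) (f : ℤ[X]) (m : ℕ) : Prop :=
  1 ≤ f.natDegree ∧ f.natDegree < d ∧
    (∀ i, |(f.coeff i : ℝ)| ≤ Real.exp ((Real.log H) ^ β)) ∧ 1 ≤ m ∧
    (m : ℝ) ≤ Real.exp ((Real.log H) ^ β)

/-- the mean of `F` over the words of `w` digits in base `b` -/
noncomputable def mean (b w : ℕ) (F : ℕ → ℝ) : ℝ :=
  (∑ c ∈ Finset.range (b ^ w), F c) / (b : ℝ) ^ w

/-- the covariance of the values of `F` at the word of `w` digits at the beginning and the word of `w`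
digits at the end of a random word `c` of `w + h` digits -/
noncomputable def covariance (b w : ℕ) (F : ℕ → ℝ) (h : ℕ) : ℝ :=
  (∑ c ∈ Finset.range (b ^ (w + h)), (F (c / b ^ h) - mean b w F) * (F (c % b ^ w) - mean b w F)) /
    (b : ℝ) ^ (w + h)

/-- the asymptotic variance of the sums of `F` -/
noncomputable def variance (b w : ℕ) (F : ℕ → ℝ) : ℝ :=
  covariance b w F 0 + 2 * ∑ h ∈ Finset.Ico 1 w, covariance b w F h

/-- Let `d ≥ 2`, `δ, β, c₀ > 0` with `2 δ + β < 1`, let `b ≥ 2`, `w ≥ 1`, and let `F` be a function of
the words of `w` digits in base `b` whose asymptotic variance is positive. Let `f H`, `m H`, `s H`, `N H`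
be such that `N H → ∞` and, for all large `H`, `Small d H β (f H) (m H)`, `c₀ log H ≤ s H` and
`s H + N H ≤ (log H) ^ (1 + δ)`. Then the proportion of the real algebraic numbers `x` of degree `d` and
height at most `H` for which the sum over `i < N H` of the values of `F` at the words of `w` digits of
`f(x) / m` after the first `s H + i` digits is at most `N H * mean + a * √(variance * N H)` tends, for
every real `a`, to the value at `a` of the distribution function of the standard normal distribution. -/
theorem result (d : ℕ) (hd : 2 ≤ d) (δ β c₀ : ℝ) (hδ : 0 < δ) (hβ : 0 < β) (hδβ : 2 * δ + β < 1)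
    (hc₀ : 0 < c₀) (b w : ℕ) (hb : 2 ≤ b) (hw : 1 ≤ w) (F : ℕ → ℝ) (hF : 0 < variance b w F)
    (f : ℕ → ℤ[X]) (m s N : ℕ → ℕ) (hf : ∀ᶠ H : ℕ in atTop, Small d H β (f H) (m H))
    (hN : Tendsto N atTop atTop) (hs : ∀ᶠ H : ℕ in atTop, c₀ * Real.log H ≤ s H)
    (hsN : ∀ᶠ H : ℕ in atTop, (s H : ℝ) + N H ≤ (Real.log H) ^ (1 + δ)) (a : ℝ) :
    Tendsto (fun H : ℕ => (({x ∈ AlgNumbers d H | ∑ i ∈ Finset.range (N H),
        F (word b w (s H + i) (aeval x (f H) / m H)) - N H * mean b w F ≤
          a * √(variance b w F * N H)}.ncard : ℕ) : ℝ) / ((AlgNumbers d H).ncard : ℝ)) atTop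
      (𝓝 ((ProbabilityTheory.gaussianReal 0 1).real (Set.Iic a))) := by
  obtain ⟨q, rfl⟩ : ∃ q, d = q + 2 := ⟨d - 2, by omega⟩
  have htot : Pool.Agent.N586.AN.S_TOT2 :=
    Pool.Agent.N586.AN.t_tot2 (Pool.Agent.N586.AN.t_tn2 Pool.Agent.N586.AN.t_vm)
      Pool.Agent.N586.AN.t_br Pool.Agent.N586.AN.t_cnt Pool.Agent.N586.AN.t_sh
  have halg : Pool.Agent.N586.AN.S_ALG := Pool.Agent.N586.AN.t_alg
  have hclt : Pool.Agent.N586.AN.S_CLT :=
    Pool.Agent.Run7.h184.AN.t_clt (Pool.Agent.Run7.h184.AN.t_ah2 htot halg) halg
  have key := hclt q δ β c₀ hδ hβ hδβ hc₀ b w F hb hw hF f m s N hf hN hs hsN a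
  exact key

end Pool.Agent.Results.MP_f2f914_nt.GaussianLawOfDigits
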