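import Pool.Agent.Run7.h776.MS.Final

/-! # Normality is simple normality of all integer multiples

Let `b ≥ 3`. A real number `x` is normal in base `b` if and only if all its multiples `m x`, `m ≥ 1`,
are simply normal in base `b` (every digit has frequency `1 / b`). More generally, for `b ≥ 2` and
`l ≥ 1` the number `x` is normal in base `b` if and only if in every multiple `m x` every word of
length `l` has frequency `b ^ (-l)`, except if `b = 2` and `l = 1`: all multiples of the Thue–Morse
number `0.0110100110010110...` are simply normal in base two, though it is not normal. So the first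
question of the problem, whether some algebraic irrational number is normal in some base, is a
question on the frequencies of single digits (or words of length two, in base two) in the multiples of
algebraic numbers.

Proof. Let `χ` be an odd Dirichlet character modulo `b` (it exists for `b ≥ 3`) and `χ₀` the trivial
one. The functions `E(y) = ∑_k g(k) (e(k y) - g(-1) e(-k y)) / (2 i k)`, `g = χ, χ₀`, are constant on
the intervals `[d / b, (d + 1) / b)` and have mean zero, and
`e(y) = i ∑_j μ(j) (χ(j) E_χ(j y) + χ₀(j) E_χ₀(j y)) / j`. By the theorem of Davenport on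
`∑_{n ≤ N} μ(n) e(n α)` this expansion converges uniformly in `y`, with the rate `(log M) ^ (-A)`. For
`b = 2` there is no odd character, and only the odd part of `e(y)` can be expanded in this way. The
shifts of the Thue–Morse sequence stay away from the rational numbers and come in complementary
pairs, and the square wave is odd, so its means along the multiples vanish.
-/

set_option autoImplicit false

open Filter Topology

namespace Pool.Agent.Results.MP_f2f914_nt.MultiplesSimplyNormal

/-- the number of `1 ≤ n ≤ N` for which the fractional part of `x b ^ n` lies in `[s, t)` -/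
noncomputable def visits (b : ℕ) (x s t : ℝ) (N : ℕ) : ℕ :=
  ((Finset.Icc 1 N).filter fun n : ℕ =>
    s ≤ Int.fract (x * (b : ℝ) ^ n) ∧ Int.fract (x * (b : ℝ) ^ n) < t).card

/-- `x` is normal in base `b`: the sequence `(x b ^ n)_{n ≥ 1}` is equidistributed modulo one -/
def IsNormal (b : ℕ) (x : ℝ) : Prop := ∀ s t : ℝ, 0 ≤ s → s < t → t ≤ 1 →
  Tendsto (fun N : ℕ => (visits b x s t N : ℝ) / (N : ℝ)) atTop (𝓝 (t - s))

/-- each of the `b ^ l` words of length `l` over the digits `0, …, b - 1` has frequency `b ^ (-l)` in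
the expansion of `x` in base `b`: for all `a < b ^ l`, the proportion of the `1 ≤ n ≤ N` for which the
fractional part of `x b ^ n` lies in `[a / b ^ l, (a + 1) / b ^ l)`, i.e. for which the word with value
`a` stands right after the `n`-th digit of `x`, tends to `1 / b ^ l`. For `l = 1` this means that `x`
is simply normal in base `b` -/
def WordsUniform (b l : ℕ) (x : ℝ) : Prop := ∀ a : ℕ, a < b ^ l →
  Tendsto (fun N : ℕ =>
    (visits b x ((a : ℝ) / (b : ℝ) ^ l) (((a : ℝ) + 1) / (b : ℝ) ^ l) N : ℝ) / (N : ℝ))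
    atTop (𝓝 (1 / (b : ℝ) ^ l))

/-- the Thue–Morse number: its binary digits after the point are `t_0, t_1, …`, where `t_k` is the
parity of the sum of the binary digits of `k` -/
noncomputable def thueMorse : ℝ :=
  ∑' k : ℕ, (((Nat.digits 2 k).sum % 2 : ℕ) : ℝ) / 2 ^ (k + 1)

/-- (1) Let `b ≥ 2` and `l ≥ 1`. Every real number `x` is normal in base `b` if and only if in every
multiple `m x`, `m ≥ 1`, all words of length `l` have frequency `b ^ (-l)`, unless `(b, l) = (2, 1)`.
In particular, for `b ≥ 3`, `x` is normal in base `b` if and only if all `m x` are simply normal in base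
`b`. (2) For `(b, l) = (2, 1)` the Thue–Morse number is a counterexample: it is not normal in base two,
but all its multiples are simply normal in base two. (3) The quantitative form of (1): for `b ≥ 3` and
all `A` there is `C` such that for all real numbers `u_0, u_1, …`, all `N` and all `M ≥ 2`
`|∑_{n < N} exp(2πi u_n)| ≤ C N / (log M) ^ A + 4 b ∑_{j ≤ M} (1 / j) D_j`, where `D_j` is the sum over
the digits `d < b` of the distances between the number of the `n < N` for which the fractional part of
`j u_n` lies in `[d / b, (d + 1) / b)` and `N / b`. (4) The first question of the problem has a positive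
answer if and only if there are an algebraic irrational number `x`, an `r ≥ 2` and an `l` with
`r ^ l ≥ 3` such that in all multiples of `x` the words of length `l` have frequency `r ^ (-l)`. -/
theorem result :
    (∀ b l : ℕ, 2 ≤ b → 1 ≤ l →
      ((∀ x : ℝ, IsNormal b x ↔ ∀ m : ℕ, 1 ≤ m → WordsUniform b l (m * x)) ↔
        ¬ (b = 2 ∧ l = 1))) ∧
    (¬ IsNormal 2 thueMorse ∧ ∀ m : ℕ, 1 ≤ m → WordsUniform 2 1 (m * thueMorse)) ∧
    (∀ b : ℕ, 3 ≤ b → ∀ A : ℕ, ∃ C : ℝ, ∀ (u : ℕ → ℝ) (N M : ℕ), 2 ≤ M →
      ‖∑ n ∈ Finset.range N, Complex.exp (2 * Real.pi * Complex.I * (u n : ℂ))‖ ≤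
        C * N / Real.log M ^ A + 4 * b * ∑ j ∈ Finset.Icc 1 M, 1 / (j : ℝ) *
          ∑ d ∈ Finset.range b, |(((Finset.range N).filter fun n : ℕ =>
            (d : ℝ) / b ≤ Int.fract (j * u n) ∧ Int.fract (j * u n) < ((d : ℝ) + 1) / b).card : ℝ) -
              N / b|) ∧
    ((∃ x : ℝ, Irrational x ∧ IsAlgebraic ℚ x ∧ ∃ r : ℕ, 2 ≤ r ∧ IsNormal r x) ↔
      ∃ x : ℝ, Irrational x ∧ IsAlgebraic ℚ x ∧ ∃ r l : ℕ, 2 ≤ r ∧ 3 ≤ r ^ l ∧
        ∀ m : ℕ, 1 ≤ m → WordsUniform r l (m * x)) := by
  have hTM : ¬ IsNormal 2 thueMorse ∧ ∀ m : ℕ, 1 ≤ m → WordsUniform 2 1 (m * thueMorse) := by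
    have e : thueMorse = Pool.Agent.Run7.h776.MS.TM.x 0 := by
      unfold thueMorse Pool.Agent.Run7.h776.MS.TM.x Pool.Agent.Run7.h776.MS.TM.t
      simp only [zero_add]
    rw [e]
    exact ⟨Pool.Agent.Run7.h776.MS.tm_not_normal, Pool.Agent.Run7.h776.MS.tm_multiples⟩
  have hmain : ∀ b l : ℕ, 2 ≤ b → 3 ≤ b ^ l → ∀ x : ℝ,
      (IsNormal b x ↔ ∀ m : ℕ, 1 ≤ m → WordsUniform b l (m * x)) :=
    fun b l hb hbl x => Pool.Agent.Run7.h776.MS.normal_iff hb hbl x
  refine ⟨fun b l hb hl => ?_, hTM, fun b hb A => ?_, ?_⟩
  · constructor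
    · rintro h ⟨rfl, rfl⟩
      exact hTM.1 ((h thueMorse).2 hTM.2)
    · intro h
      apply hmain b l hb
      by_contra hcon
      push Not at hcon
      apply h
      have h1 : b ^ 1 ≤ b ^ l := Nat.pow_le_pow_right (by omega) hl
      rw [pow_one] at h1
      have hb2 : b = 2 := by omega
      subst hb2
      refine ⟨rfl, ?_⟩
      by_contra hl1
      have h2 : 2 ^ 2 ≤ 2 ^ l := Nat.pow_le_pow_right (by norm_num) (by omega)
      omega
  · obtain ⟨C, _, hC⟩ := Pool.Agent.Run7.h776.MS.main_ineq hb A
    refine ⟨C, fun u N M hM => ?_⟩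
    have h := hC M hM N u
    unfold Pool.Agent.Run7.h776.MS.dev at h
    simp only [Pool.Agent.Run7.h776.MS.cnt_eq (by omega : 0 < b)] at h
    exact h
  · constructor
    · rintro ⟨x, h1, h2, r, hr, h3⟩
      have hr2 : 3 ≤ r ^ 2 := by nlinarith
      exact ⟨x, h1, h2, r, 2, hr, hr2, (hmain r 2 hr hr2 x).1 h3⟩
    · rintro ⟨x, h1, h2, r, l, hr, hrl, h3⟩
      exact ⟨x, h1, h2, r, hr, (hmain r l hr hrl x).2 h3⟩

end Pool.Agent.Results.MP_f2f914_nt.MultiplesSimplyNormal
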