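import Pool.Agent.Run7.h274.Alg

/-!
# How often does a word occur in the bounded multiples of an algebraic number?

Mahler (1973) and Berend and Boshernitzan (1994) proved that for every irrational number `x` and
every word of length `l` there is a multiple `m x` with `m < 2 b ^ (l + 1)` whose base `b` expansion
contains the word infinitely often. We give a counting form. A place `k` is good if the Dirichlet
approximation of `b ^ k x` has a denominator of at least `4 b ^ l`; then for at least `M / (8 b ^ l)`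
of the `m ≤ M` the given word stands in `m x` right behind the `k`-th digit. A long run of bad places
forces `b ^ k x` to be extremely close to a rational number with denominator less than `4 b ^ l`, so
that there is no digit change of `R x` at the place `k` if `R` is divisible by all these
denominators. Hence the number of good places is at least a constant times the number of digit
changes of `R x`, and the known lower bounds for the latter apply.

For almost all multiples one uses good places of a higher level `l n`, at which all blocks of length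
`l n` have a frequency of at most `4 / b ^ (l n)`, and counts the blocks which avoid a word.
-/

set_option autoImplicit false

namespace Pool.Agent.Results.MP_f2f914_nt.WordsInBoundedMultiples

open Finset Filter

/-- the `k`-th digit of `y` behind the point in base `b` -/
noncomputable def digit (b : ℕ) (y : ℝ) (k : ℕ) : ℤ := ⌊(b : ℝ) ^ k * y⌋ % (b : ℤ)

/-- the number of `k < N` such that the digits of `y` with the numbers `k + 1` and `k + 2` are
different -/
noncomputable def changes (b : ℕ) (y : ℝ) (N : ℕ) : ℕ :=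
  #{k ∈ range N | digit b y (k + 1) ≠ digit b y (k + 2)}

/-- the number of `k < N` such that the word of length `l` with value `W` (its digits are those of
`W < b ^ l` in base `b`, with leading zeros) stands in the expansion of `y` right behind the `k`-th
digit, i.e. the fractional part of `b ^ k y` lies in `[W / b ^ l, (W + 1) / b ^ l)` -/
noncomputable def occ (b l W : ℕ) (y : ℝ) (N : ℕ) : ℕ :=
  #{k ∈ range N | ⌊(b : ℝ) ^ (k + l) * y⌋ % ((b : ℤ) ^ l) = (W : ℤ)}

/-- For some `c > 0`, all `M ≥ 4 (b + 1) b ^ l`, all large `N` (how large does not depend on `M`) and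
every word `W` of length `l`: at least `M / (16 b ^ l)` of the multiples `m x`, `1 ≤ m ≤ M`, contain
`W` at least `c F(N)` times among their first `N` digits. -/
def Many (b l : ℕ) (x : ℝ) (F : ℕ → ℝ) : Prop :=
  ∃ c : ℝ, 0 < c ∧ ∃ N₀ : ℕ, ∀ M : ℕ, 4 * (b + 1) * b ^ l ≤ M → ∀ N : ℕ, N₀ ≤ N → ∀ W < b ^ l,
    M ≤ 16 * b ^ l *
      ((Icc 1 M).filter (fun m : ℕ => c * F N ≤ (occ b l W ((m : ℝ) * x) N : ℝ))).card

/-- For some `c > 0` and all large `M` and `N`, for all but at most `δ M` of the `m ≤ M` every word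
`W` of length `l` occurs at least `c F(N)` times among the first `N` digits of `m x`. -/
def Most (b l : ℕ) (δ : ℝ) (x : ℝ) (F : ℕ → ℝ) : Prop :=
  ∃ c : ℝ, 0 < c ∧ ∃ M₀ N₀ : ℕ, ∀ M : ℕ, M₀ ≤ M → ∀ N : ℕ, N₀ ≤ N →
    (((Icc 1 M).filter (fun m : ℕ => ∃ W < b ^ l,
      (occ b l W ((m : ℝ) * x) N : ℝ) < c * F N)).card : ℝ) ≤ δ * M

/-- For infinitely many `N` every word `W` of length `l` occurs at least `c F(N)` times among the
first `N` digits of the number `y`. -/
def Often (b l : ℕ) (y : ℝ) (F : ℕ → ℝ) : Prop :=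
  ∃ c : ℝ, 0 < c ∧ ∃ᶠ N : ℕ in atTop, ∀ W < b ^ l, c * F N ≤ (occ b l W y N : ℝ)

/-- the function `(log N) ^ 3 / (log log N) ^ 5` -/
noncomputable def logCubed (N : ℕ) : ℝ := (Real.log N) ^ 3 / (Real.log (Real.log N)) ^ 5

/-- the function `N ^ τ` -/
noncomputable def power (τ : ℝ) (N : ℕ) : ℝ := (N : ℝ) ^ τ

lemma changes_eq (b : ℕ) (y : ℝ) (N : ℕ) : changes b y N = Pool.Agent.Run7.h274.WM.chg b y N := by
  unfold changes Pool.Agent.Run7.h274.WM.chg Pool.Agent.Run7.h274.WM.Chg digit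
  congr

lemma often_of_most {b l : ℕ} {x : ℝ} {F : ℕ → ℝ} (h : Most b l (1 / 2) x F) :
    ∃ m : ℕ, 1 ≤ m ∧ Often b l ((m : ℝ) * x) F := by
  classical
  obtain ⟨c, hc, M₀, N₀, h⟩ := h
  set M := max M₀ 1 with hM
  have hM1 : 1 ≤ M := le_max_right _ _
  have h1 : ∀ N, N₀ ≤ N → ∃ m ∈ Icc 1 M, ∀ W < b ^ l, c * F N ≤ (occ b l W ((m : ℝ) * x) N : ℝ) := by
    intro N hN
    by_contra hcon
    push Not at hcon
    have h2 := h M (le_max_left _ _) N hN
    rw [filter_true_of_mem hcon, Nat.card_Icc, Nat.add_sub_cancel] at h2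
    have : (1 : ℝ) ≤ M := by exact_mod_cast hM1
    linarith
  by_contra hcon
  push Not at hcon
  have h2 : ∀ m ∈ Icc 1 M, ∀ᶠ N : ℕ in atTop,
      ¬ ∀ W < b ^ l, c * F N ≤ (occ b l W ((m : ℝ) * x) N : ℝ) := by
    intro m hm
    have h3 := hcon m (mem_Icc.1 hm).1
    unfold Often at h3
    push Not at h3
    have h4 := h3 c hc
    filter_upwards [h4] with N hN
    push Not
    exact hN
  have h5 := (Filter.eventually_all_finset (Icc 1 M)).2 h2
  obtain ⟨N, hN, hN0⟩ := (h5.and (eventually_ge_atTop N₀)).exists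
  obtain ⟨m, hm, hmW⟩ := h1 N hN0
  exact hN m hm hmW

/-- Let `b ≥ 2` and `l ≥ 1`.

(1) For every real number `x`. Let `R` be divisible by all `q < 4 b ^ l`, let `R ≤ b ^ h` and
`M ≥ 4 (b + 1) b ^ l`. For every `N` there is `g` with `changes b (R x) N ≤ (h + 1) (g + h)` such that
for every word `W` of length `l` the mean over `m ≤ M` of the numbers of occurrences of `W` at the
first `N` places of `m x` is at least `g / (8 b ^ l)`, and at least `M / (16 b ^ l)` of these numbers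
are at least `g / (16 b ^ l)`.

(2) For every real number `x`. Let `R` be divisible by all `q < 4 b ^ (l n)`, `R ≤ b ^ h` and
`M ≥ 4 (b + 1) b ^ (l n)`. For every `N` there is `g` with `changes b (R x) N ≤ (h + 1) (g + h)` such
that for all but at most `8 b ^ l (1 - b ^ (-l)) ^ n M` of the `m ≤ M` every word of length `l` occurs
at least `g / (2 l n) - l n` times at the first `N` places of `m x`.

(3) Every real algebraic irrational number `ξ`: at least `M / (16 b ^ l)` of the multiples `m ξ` with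
`m ≤ M` contain a given word of length `l` at least `c (log N) ^ 3 / (log log N) ^ 5` times at the
first `N` places (`M ≥ 4 (b + 1) b ^ l`), all but `δ M` of them contain all words of length `l` that
often (`M ≥ M₀(δ)`), and in one of them this holds for infinitely many `N`.

(4) Let `p` be a prime which does not divide `b`, `P` an integer polynomial of degree `d`, `p ^ (e + 1)`
not a divisor of `P(0)`, and `ξ` a real root of `P`. Let `s` be divisible by `p ^ (e + κ + 1)`, where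
`p ^ (κ + 1)` does not divide `(b - 1) (4 b ^ l)!` (if `p > 4 b ^ l` does not divide `P(0)` then
`e = κ = 0`). Then (3) holds for the multiples of `ξ / s` with `N ^ (1 / d)` in place of
`(log N) ^ 3 / (log log N) ^ 5`, where in the second statement `s` has to be divisible by a power
of `p` which depends on `δ`; and for infinitely many `N` all words of length `l` occur at least
`c N ^ (1 / d)` times at the first `N` places of a fixed number `m ξ / p ^ j`.

(5) Let `ξ` be a real algebraic number and `p` a prime which does not divide `b` such that every prime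
ideal of the ring of integers of `ℚ(ξ)` over `p` is ramified. Then (3) holds with a power `N ^ τ`,
`τ > 0`, in place of `(log N) ^ 3 / (log log N) ^ 5`. -/
theorem result (b l : ℕ) (hb : 2 ≤ b) (hl : 1 ≤ l) :
    (∀ R h M : ℕ, (∀ q, 1 ≤ q → q < 4 * b ^ l → q ∣ R) → R ≤ b ^ h → 4 * (b + 1) * b ^ l ≤ M →
      ∀ (x : ℝ) (N : ℕ), ∃ g : ℕ, changes b ((R : ℝ) * x) N ≤ (h + 1) * (g + h) ∧
        ∀ W < b ^ l, g * M ≤ 8 * b ^ l * ∑ m ∈ Icc 1 M, occ b l W ((m : ℝ) * x) N ∧
          M ≤ 16 * b ^ l *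
            ((Icc 1 M).filter (fun m : ℕ => g ≤ 16 * b ^ l * occ b l W ((m : ℝ) * x) N)).card) ∧
    (∀ n R h M : ℕ, 1 ≤ n → (∀ q, 1 ≤ q → q < 4 * b ^ (l * n) → q ∣ R) → R ≤ b ^ h →
      4 * (b + 1) * b ^ (l * n) ≤ M →
      ∀ (x : ℝ) (N : ℕ), ∃ g : ℕ, changes b ((R : ℝ) * x) N ≤ (h + 1) * (g + h) ∧
        (b ^ l) ^ n * ((Icc 1 M).filter (fun m : ℕ => ∃ W < b ^ l,
          2 * (l * n) * (occ b l W ((m : ℝ) * x) N + l * n) < g)).card ≤
            8 * b ^ l * (b ^ l - 1) ^ n * M) ∧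
    (∀ ξ : ℝ, IsAlgebraic ℚ ξ → Irrational ξ →
      Many b l ξ logCubed ∧ (∀ δ : ℝ, 0 < δ → Most b l δ ξ logCubed) ∧
        ∃ m : ℕ, 1 ≤ m ∧ Often b l ((m : ℝ) * ξ) logCubed) ∧
    (∀ p : ℕ, p.Prime → ¬ p ∣ b → ∀ (P : Polynomial ℤ) (e : ℕ),
      ¬ (p : ℤ) ^ (e + 1) ∣ P.coeff 0 → ∀ ξ : ℝ, Polynomial.aeval ξ P = 0 →
        (∀ κ : ℕ, ¬ p ^ (κ + 1) ∣ (b - 1) * (4 * b ^ l).factorial → ∀ s : ℕ, s ≠ 0 →
          p ^ (e + κ + 1) ∣ s → Many b l (ξ / s) (power (1 / P.natDegree))) ∧
        (∀ δ : ℝ, 0 < δ → ∃ j : ℕ, ∀ s : ℕ, s ≠ 0 → p ^ j ∣ s →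
          Most b l δ (ξ / s) (power (1 / P.natDegree))) ∧
        ∃ m j : ℕ, 1 ≤ m ∧ Often b l ((m : ℝ) * (ξ / (p : ℝ) ^ j)) (power (1 / P.natDegree))) ∧
    (∀ ξ : ℝ, IsAlgebraic ℚ ξ → ∀ p : ℕ, p.Prime → ¬ p ∣ b →
      (∀ P : Ideal (NumberField.RingOfIntegers (IntermediateField.adjoin ℚ {ξ})), P.IsPrime →
        (p : NumberField.RingOfIntegers (IntermediateField.adjoin ℚ {ξ})) ∈ P →
        (p : NumberField.RingOfIntegers (IntermediateField.adjoin ℚ {ξ})) ∈ P ^ 2) →
      (∃ τ : ℝ, 0 < τ ∧ Many b l ξ (power τ)) ∧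
        (∀ δ : ℝ, 0 < δ → ∃ τ : ℝ, 0 < τ ∧ Most b l δ ξ (power τ)) ∧
          ∃ m : ℕ, 1 ≤ m ∧ ∃ τ : ℝ, 0 < τ ∧ Often b l ((m : ℝ) * ξ) (power τ)) := by
  simp only [changes_eq]
  refine ⟨fun R h M hR hRh hM x N => Pool.Agent.Run7.h274.WM.core hb hl hM hR hRh x N,
    fun n R h M hn hR hRh hM x N => ?_, fun ξ halg hirr => ?_, fun p hp hpb P e hP0 ξ hξ => ?_,
    fun ξ halg p hp hpb hram => ?_⟩
  · have hln : 1 ≤ l * n := Nat.mul_pos hl hn
    have hB : b ≤ b ^ (l * n) := Nat.le_self_pow (by omega) b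
    have hM0 : 1 ≤ M := by
      have : 1 ≤ b ^ (l * n) := Nat.one_le_pow _ _ (by omega)
      nlinarith
    exact ⟨_, Pool.Agent.Run7.h274.WM.chg_le_gd hb hB hM hR hRh x N,
      Pool.Agent.Run7.h274.WM.almost_all hb hl hM0 x N⟩
  · have h1 : ∀ δ : ℝ, 0 < δ → Most b l δ ξ logCubed := fun δ hδ =>
      Pool.Agent.Run7.h274.WM.most_alg hb hl halg hirr hδ
    exact ⟨Pool.Agent.Run7.h274.WM.many_alg hb hl halg hirr, h1,
      often_of_most (h1 (1 / 2) (by norm_num))⟩
  · have hP00 : P.coeff 0 ≠ 0 := fun h => hP0 (by rw [h]; exact dvd_zero _)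
    have h1 : ∀ δ : ℝ, 0 < δ → ∃ j : ℕ, ∀ s : ℕ, s ≠ 0 → p ^ j ∣ s →
        Most b l δ (ξ / s) (power (1 / P.natDegree)) := fun δ hδ =>
      Pool.Agent.Run7.h274.WM.most_pow hb hl hp hpb P hP00 hξ hδ
    refine ⟨fun κ hκ s hs hps => Pool.Agent.Run7.h274.WM.many_pow hb hl hp hpb P hP0 hκ hs hps hξ,
      h1, ?_⟩
    obtain ⟨j, hj⟩ := h1 (1 / 2) (by norm_num)
    obtain ⟨m, hm, h2⟩ := often_of_most (hj (p ^ j) (pow_ne_zero _ hp.ne_zero) (dvd_refl _))
    refine ⟨m, j, hm, ?_⟩
    rw [Nat.cast_pow] at h2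
    exact h2
  · have hint : IsIntegral ℚ ξ := halg.isIntegral
    have hfd : FiniteDimensional ℚ (IntermediateField.adjoin ℚ {ξ}) :=
      IntermediateField.adjoin.finiteDimensional hint
    have hnf : NumberField (IntermediateField.adjoin ℚ {ξ}) := { to_finiteDimensional := hfd }
    have key : ∀ R : ℕ, R ≠ 0 → ∃ c τ : ℝ, 0 < c ∧ 0 < τ ∧ ∀ᶠ N : ℕ in atTop,
        c * Pool.Agent.Run7.h274.WM.Fp τ N ≤ (Pool.Agent.Run7.h274.WM.chg b ((R : ℝ) * ξ) N : ℝ) :=
      fun R hR => Pool.Agent.Run7.h274.WM.chg_ram halg _ (RingHom.id _) p hp hram hb hpb hR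
    have h1 : ∀ δ : ℝ, 0 < δ → ∃ τ : ℝ, 0 < τ ∧ Most b l δ ξ (power τ) := by
      intro δ hδ
      obtain ⟨n, hn1, hn⟩ := Pool.Agent.Run7.h274.WM.exists_n (l := l) hb hδ
      obtain ⟨c, τ, hc, hτ, hev⟩ := key (4 * b ^ (l * n)).factorial (Nat.factorial_ne_zero _)
      exact ⟨τ, hτ, Pool.Agent.Run7.h274.WM.most_of_chg hb hl hn1 hn
        (Pool.Agent.Run7.h274.WM.fact_dvd _) (Pool.Agent.Run7.h274.WM.le_pow_self hb _) ξ
        (Pool.Agent.Run7.h274.WM.Fp_tendsto hτ) hc (C := 0)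
        (hev.mono fun N hN => by rw [add_zero]; exact hN)⟩
    refine ⟨?_, h1, ?_⟩
    · obtain ⟨c, τ, hc, hτ, hev⟩ := key (4 * b ^ l).factorial (Nat.factorial_ne_zero _)
      exact ⟨τ, hτ, Pool.Agent.Run7.h274.WM.many_of_chg hb hl
        (Pool.Agent.Run7.h274.WM.fact_dvd _) (Pool.Agent.Run7.h274.WM.le_pow_self hb _) ξ
        (Pool.Agent.Run7.h274.WM.Fp_tendsto hτ) hc (C := 0)
        (hev.mono fun N hN => by rw [add_zero]; exact hN)⟩
    · obtain ⟨τ, hτ, h2⟩ := h1 (1 / 2) (by norm_num)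
      obtain ⟨m, hm, h3⟩ := often_of_most h2
      exact ⟨m, hm, τ, hτ, h3⟩

end Pool.Agent.Results.MP_f2f914_nt.WordsInBoundedMultiples
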